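import Pool.Agent.Helper29.OT.St

/-!
# Project OT: module OP, optimal fractional cover has small support
-/

set_option autoImplicit false

namespace Pool.Agent.Helper48.OT

open Finset Pool.Agent.Helper14.FEM Pool.Agent.Helper3.EMK Pool.Agent.Helper29.TK
  Pool.Agent.Helper29.OT

/-- The set of covers of total weight at most that of `x`. -/
def OP_C {n : ℕ} (k : ℕ) (x : Fin n → ℝ) : Set (Fin n → ℝ) :=
  {z | (∀ i, 0 ≤ z i) ∧ ∑ i, z i ≤ ∑ i, x i ∧
    ∀ e : Finset (Fin n), e.card = k → 1 ≤ ∑ i ∈ e, x i → 1 ≤ ∑ i ∈ e, z i}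

theorem OP_closed {n : ℕ} (k : ℕ) (x : Fin n → ℝ) : IsClosed (OP_C k x) := by
  have h1 : IsClosed {z : Fin n → ℝ | ∀ i, 0 ≤ z i} := by
    simp only [Set.setOf_forall]
    exact isClosed_iInter fun i => isClosed_le continuous_const (continuous_apply i)
  have h2 : IsClosed {z : Fin n → ℝ | ∑ i, z i ≤ ∑ i, x i} :=
    isClosed_le (continuous_finset_sum _ fun i _ => continuous_apply i) continuous_const
  have h3 : IsClosed {z : Fin n → ℝ | ∀ e : Finset (Fin n), e.card = k →
      1 ≤ ∑ i ∈ e, x i → 1 ≤ ∑ i ∈ e, z i} := by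
    simp only [Set.setOf_forall]
    exact isClosed_iInter fun e => isClosed_iInter fun _ => isClosed_iInter fun _ =>
      isClosed_le continuous_const (continuous_finset_sum _ fun i _ => continuous_apply i)
  exact h1.inter (h2.inter h3)

theorem OP_compact {n : ℕ} (k : ℕ) (x : Fin n → ℝ) : IsCompact (OP_C k x) := by
  refine (isCompact_Icc (a := (fun _ => 0 : Fin n → ℝ)) (b := fun _ => ∑ i, x i)).of_isClosed_subset
    (OP_closed k x) ?_
  rintro z ⟨h0, h1, -⟩
  refine ⟨fun i => h0 i, fun i => ?_⟩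
  exact (Finset.single_le_sum (f := z) (fun j _ => h0 j) (Finset.mem_univ i)).trans h1

theorem hOP : StOP := by
  classical
  intro n k s hk x hx hsum
  have hxC : x ∈ OP_C k x := ⟨hx, le_rfl, fun e _ h => h⟩
  obtain ⟨z, hzC, hzmin⟩ := (OP_compact k x).exists_isMinOn ⟨x, hxC⟩
    (f := fun z : Fin n → ℝ => ∑ i, z i)
    (continuous_finset_sum _ fun i _ => continuous_apply i).continuousOn
  obtain ⟨hz0, hz1, hz2⟩ := hzC
  have hmin : ∀ y ∈ OP_C k x, ∑ i, z i ≤ ∑ i, y i := fun y hy => hzmin hy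
  refine ⟨z, hz0, lt_of_le_of_lt hz1 hsum, ?_, ?_⟩
  · unfold cnt
    apply Finset.card_le_card
    intro e he
    rw [Finset.mem_filter, Finset.mem_powersetCard] at he ⊢
    exact ⟨he.1, hz2 e he.1.2 he.2⟩
  · by_contra hcon
    push Not at hcon
    have hk0 : (0 : ℝ) < k := by exact_mod_cast hk
    have hS0 : 0 ≤ ∑ i, z i := Finset.sum_nonneg fun i _ => hz0 i
    have hN : (0 : ℝ) < (#{i | z i ≠ 0} : ℝ) := lt_of_le_of_lt (by positivity) hcon
    have hne : ({i | z i ≠ 0} : Finset (Fin n)).Nonempty := by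
      rw [← Finset.card_pos]; exact_mod_cast hN
    obtain ⟨i0, hi0, hmin0⟩ := Finset.exists_min_image _ z hne
    rw [Finset.mem_filter] at hi0
    set ε := z i0 with hε
    have hε0 : 0 < ε := lt_of_le_of_ne (hz0 i0) (Ne.symm hi0.2)
    have hεle : ∀ i, z i ≠ 0 → ε ≤ z i := fun i hi =>
      hmin0 i (Finset.mem_filter.2 ⟨Finset.mem_univ i, hi⟩)
    let y : Fin n → ℝ := fun i => (1 + k * ε) * z i - ε * (if z i ≠ 0 then 1 else 0)
    have hy0 : ∀ i, 0 ≤ y i := by
      intro i
      by_cases h : z i = 0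
      · simp [y, h]
      · have h1 := hεle i h
        have h2 : 0 ≤ k * ε * z i := by have := hz0 i; positivity
        simp only [y, h, ne_eq, not_false_eq_true, if_true, mul_one]
        nlinarith
    have hysum : ∀ e : Finset (Fin n), ∑ i ∈ e, y i =
        (1 + k * ε) * ∑ i ∈ e, z i - ε * ((e.filter fun i => z i ≠ 0).card : ℝ) := by
      intro e
      simp only [y]
      rw [Finset.sum_sub_distrib, ← Finset.mul_sum, ← Finset.mul_sum, Finset.sum_boole]
    have hlt : ∑ i, y i < ∑ i, z i := by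
      rw [hysum]
      nlinarith
    have hyC : y ∈ OP_C k x := by
      refine ⟨hy0, by linarith, fun e he h => ?_⟩
      rw [hysum]
      have h1 := hz2 e he h
      have h2 : ((e.filter fun i => z i ≠ 0).card : ℝ) ≤ k := by
        have := Finset.card_filter_le e (fun i => z i ≠ 0)
        rw [he] at this
        exact_mod_cast this
      have h3 : (0 : ℝ) ≤ k * ε := by positivity
      have h4 : ε * ((e.filter fun i => z i ≠ 0).card : ℝ) ≤ ε * k :=
        mul_le_mul_of_nonneg_left h2 hε0.le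
      nlinarith
    exact absurd (hmin y hyC) (not_le.2 hlt)

end Pool.Agent.Helper48.OT
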